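import Mathlib
import Pool.Agent.H1.NL

namespace Pool.Agent.Results.MP_593d43_lc.Counterexample

/-- The element of the field with coordinates `v` in the basis `1, α, …, α^(m-1)`. -/
def coord {K : Type} [Field K] [Algebra (ZMod 2) K] {m : ℕ} (α : K) (v : Fin m → ZMod 2) : K :=
  ∑ i, v i • α ^ i.val

/-- Orthogonal functions. -/
def Orthogonal {K : Type} [Field K] [Fintype K] (g : K → ZMod 2) : Prop :=
  ∀ l : K, l ≠ 1 → ∑ x, (-1 : ℤ) ^ (g (l * x) + g x).val = 0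

/-- `g` is an affine function of the `m` coordinates. -/
def AffineInCoords {K : Type} [Field K] [Algebra (ZMod 2) K] (m : ℕ) (α : K) (g : K → ZMod 2) :
    Prop :=
  ∃ (a : Fin m → ZMod 2) (b : ZMod 2), ∀ v : Fin m → ZMod 2, g (coord α v) = b + ∑ i, a i * v i

/-- Span `n` sequences. -/
def IsSpan (n : ℕ) (s : ℕ → ZMod 2) : Prop :=
  (∀ i, s (i + (2 ^ n - 1)) = s i) ∧
    ∀ w : Fin n → ZMod 2, w ≠ 0 → ∃! i, i < 2 ^ n - 1 ∧ ∀ j : Fin n, s (i + j.val) = w j

/-- The linear span: the length of the shortest LFSR generating `s`. -/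
noncomputable def LS (s : ℕ → ZMod 2) : ℕ :=
  sInf {L | ∃ a : Fin L → ZMod 2, ∀ k, s (k + L) = ∑ j, a j * s (k + j.val)}

open Pool.Agent.H1.NL in
/-- A span `n` sequence from a non-affine orthogonal feedback function with linear span below
`2^n - 2 - 3n` (`m = 9`, `n = 10`). -/
theorem result : ∃ (m n : ℕ) (K : Type) (_ : Field K) (_ : Fintype K) (_ : Algebra (ZMod 2) K)
    (α : K) (g : K → ZMod 2) (c : ZMod 2) (r : Fin m → ℕ) (s : ℕ → ZMod 2),
    1 ≤ m ∧ m < n ∧ Fintype.card K = 2 ^ m ∧ orderOf α = 2 ^ m - 1 ∧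
    Orthogonal g ∧ ¬ AffineInCoords m α g ∧ StrictMono r ∧ (∀ i, 0 < r i ∧ r i < n) ∧
    (∀ k, s (k + n) = c + s k + g (coord α fun i => s (k + r i))) ∧
    IsSpan n s ∧ (LS s : ℤ) < 2 ^ n - 2 - 3 * n := by
  classical
  obtain ⟨K, i1, i2, α, h, hs⟩ := exists_field
  let i3 : Fintype K := Fintype.ofSurjective _ hs
  have hc : ∀ v : Fin 9 → ZMod 2, coord α v = psi α v := fun _ => rfl
  refine ⟨9, 10, K, i1, i3, i2, α, gg α, 0, fun i => i.val + 1, sq, by norm_num, by norm_num,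
    ?_, order α h, orth α h hs, ?_, fun i j hij => Nat.succ_lt_succ hij,
    fun i => ⟨Nat.succ_pos _, by have := i.2; show i.val + 1 < 10; omega⟩, fun k => ?_, ⟨sq_per, span⟩, ?_⟩
  · rw [← Fintype.card_of_bijective ⟨psi_inj α h, hs⟩]
    simp
  · rintro ⟨a, b, hab⟩
    obtain ⟨h1, h2, h3, h4⟩ := nonaff
    rw [← gg_psi α h, ← hc, hab] at h1 h2 h3 h4
    simp [Fin.sum_univ_succ] at h1 h2 h3 h4
    rw [h4, zero_add] at h1 h2 h3
    rw [h1, h2] at h3
    simp at h3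
  · rw [hc, gg_psi α h]
    exact rec1 k
  · have : LS sq ≤ 987 := Nat.sInf_le ⟨fun j => bt AA j.val, lin⟩
    push_cast
    omega

end Pool.Agent.Results.MP_593d43_lc.Counterexample
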